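import Pool.Agent.Gpc.Rows

set_option autoImplicit false

namespace Pool.Agent.Gpe

open Set Pool.Agent.Gpc

variable {n : ℕ} {p q p₀ : ZMod n → ℂ}

/-- The distances which change if the vertices `i + 1` and `i + 2` move on circles around `i` and `i + 3`. -/
def Ch (i a b : ZMod n) : Prop :=
  (a = i + 1 ∧ b ≠ i ∧ b ≠ i + 1 ∧ b ≠ i + 2) ∨ (b = i + 1 ∧ a ≠ i ∧ a ≠ i + 1 ∧ a ≠ i + 2) ∨
    (a = i + 2 ∧ b ≠ i + 1 ∧ b ≠ i + 2 ∧ b ≠ i + 3) ∨ (b = i + 2 ∧ a ≠ i + 1 ∧ a ≠ i + 2 ∧ a ≠ i + 3)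

-- BEGIN row iso
private theorem iso_sq {a b c d : ℂ} (h : dist a b = dist c d) :
    (a.re - b.re) ^ 2 + (a.im - b.im) ^ 2 = (c.re - d.re) ^ 2 + (c.im - d.im) ^ 2 := by
  rw [Complex.dist_eq_re_im, Complex.dist_eq_re_im] at h
  exact (Real.sqrt_inj (by positivity) (by positivity)).1 h

private theorem iso_dir (c u v : ℂ) (hc : Complex.normSq c = 1) :
    ∃ g : ℂ ≃ᵢ ℂ, ∀ z, g z = v + c * (z - u) := by
  have h0 : c ≠ 0 := by
    rintro rfl
    simp at hc
  have h1 : ‖c‖ = 1 := by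
    have h := Complex.sq_norm c
    rw [hc] at h
    exact (pow_eq_one_iff_of_nonneg (norm_nonneg c) two_ne_zero).1 h
  refine ⟨IsometryEquiv.mk' (fun z => v + c * (z - u)) (fun y => u + c⁻¹ * (y - v))
    (fun y => ?_) (Isometry.of_dist_eq fun x y => ?_), fun z => rfl⟩
  · simp only [add_sub_cancel_left]
    rw [← mul_assoc, mul_inv_cancel₀ h0, one_mul, add_sub_cancel]
  · rw [dist_eq_norm, dist_eq_norm,
      show v + c * (x - u) - (v + c * (y - u)) = c * (x - y) by ring, norm_mul, h1, one_mul]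

private theorem iso_opp (c u v : ℂ) (hc : Complex.normSq c = 1) :
    ∃ g : ℂ ≃ᵢ ℂ, ∀ z, g z = v + c * (starRingEnd ℂ) (z - u) := by
  have h0 : c ≠ 0 := by
    rintro rfl
    simp at hc
  have h1 : ‖c‖ = 1 := by
    have h := Complex.sq_norm c
    rw [hc] at h
    exact (pow_eq_one_iff_of_nonneg (norm_nonneg c) two_ne_zero).1 h
  refine ⟨IsometryEquiv.mk' (fun z => v + c * (starRingEnd ℂ) (z - u))
    (fun y => u + (starRingEnd ℂ) (c⁻¹ * (y - v)))
    (fun y => ?_) (Isometry.of_dist_eq fun x y => ?_), fun z => rfl⟩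
  · simp only [add_sub_cancel_left, Complex.conj_conj]
    rw [← mul_assoc, mul_inv_cancel₀ h0, one_mul, add_sub_cancel]
  · rw [dist_eq_norm, dist_eq_norm,
      show v + c * (starRingEnd ℂ) (x - u) - (v + c * (starRingEnd ℂ) (y - u)) =
        c * (starRingEnd ℂ) (x - y) by rw [map_sub, map_sub, map_sub]; ring,
      norm_mul, h1, one_mul, Complex.norm_conj]

/-- a = p 1 - p 0 ≠ 0, b = q 1 - q 0, w = b / a of norm 1, z i = w (p i - p 0), y i = q i - q 0, Z i = z i * conj b, Y i = y i * conj b.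
Then |Z i| = |Y i|, |Z i - |b|²| = |Y i - |b|²|, |Z i - Z j| = |Y i - Y j|: Re Z i = Re Y i, Im Z i * Im Z j = Im Y i * Im Y j, and
Im Z 2 ≠ 0 (convexity). So Y = Z for all i, or Y = conj Z for all i: g z = q 0 + w (z - p 0) or g z = q 0 + (b / conj b) conj (w (z - p 0));
σ = 1 or -1. (g: `Circle`, `rotation`, `Complex.conjLIE`, `IsometryEquiv.addLeft`; or `IsometryEquiv.mk'` by hand.) -/
theorem iso (hn : 3 ≤ n) (hp : ConvexPolygon p) (h : ∀ i j, dist (q i) (q j) = dist (p i) (p j)) :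
    ∃ (g : ℂ ≃ᵢ ℂ) (σ : ℝ), (σ = 1 ∨ σ = -1) ∧ (∀ i, q i = g (p i)) ∧
      ∀ x y z, dt (g x - g y) (g z - g y) = σ * dt (x - y) (z - y) := by
  have H : ∀ i j, ((q i).re - (q 0).re) * ((q j).re - (q 0).re) +
      ((q i).im - (q 0).im) * ((q j).im - (q 0).im) =
      ((p i).re - (p 0).re) * ((p j).re - (p 0).re) +
      ((p i).im - (p 0).im) * ((p j).im - (p 0).im) := by
    intro i j
    have h1 := iso_sq (h i j)
    have h2 := iso_sq (h i 0)
    have h3 := iso_sq (h j 0)
    linarith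
  have hB : ∀ i j, dt (q 1 - q 0) (q i - q 0) * dt (q 1 - q 0) (q j - q 0) =
      dt (p 1 - p 0) (p i - p 0) * dt (p 1 - p 0) (p j - p 0) := by
    intro i j
    have e : ∀ r : ZMod n → ℂ, dt (r 1 - r 0) (r i - r 0) * dt (r 1 - r 0) (r j - r 0) =
        (((r 1).re - (r 0).re) * ((r 1).re - (r 0).re) +
          ((r 1).im - (r 0).im) * ((r 1).im - (r 0).im)) *
        (((r i).re - (r 0).re) * ((r j).re - (r 0).re) +
          ((r i).im - (r 0).im) * ((r j).im - (r 0).im)) -
        (((r 1).re - (r 0).re) * ((r i).re - (r 0).re) +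
          ((r 1).im - (r 0).im) * ((r i).im - (r 0).im)) *
        (((r 1).re - (r 0).re) * ((r j).re - (r 0).re) +
          ((r 1).im - (r 0).im) * ((r j).im - (r 0).im)) := by
      intro r
      simp only [dt, Complex.sub_re, Complex.sub_im]
      ring
    rw [e q, e p, H 1 1, H i j, H 1 i, H 1 j]
  have hpos : 0 < dt (p 1 - p 0) (p 2 - p 0) := by
    have h1 := hp 0 2 (fun h2 => by
      have h3 : ((2 : ℕ) : ZMod n) = 0 := by exact_mod_cast h2
      rw [ZMod.natCast_eq_zero_iff] at h3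
      exact absurd (Nat.le_of_dvd (by norm_num) h3) (by omega)) (fun h2 => by
      have h3 : ((1 : ℕ) : ZMod n) = 0 := by
        push_cast
        linear_combination h2
      rw [ZMod.natCast_eq_zero_iff] at h3
      exact absurd (Nat.le_of_dvd (by norm_num) h3) (by omega))
    rwa [zero_add] at h1
  have ha : p 1 - p 0 ≠ 0 := by
    intro h0
    rw [h0] at hpos
    simp [dt] at hpos
  have hab : Complex.normSq (q 1 - q 0) = Complex.normSq (p 1 - p 0) := by
    rw [Complex.normSq_apply, Complex.normSq_apply]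
    simpa only [Complex.sub_re, Complex.sub_im] using H 1 1
  have hna : Complex.normSq (p 1 - p 0) ≠ 0 := fun h0 => ha (Complex.normSq_eq_zero.1 h0)
  have hb : (starRingEnd ℂ) (q 1 - q 0) ≠ 0 := by
    intro h0
    apply hna
    rw [← hab, ← Complex.normSq_conj, h0, map_zero]
  have hm : ∀ c s t : ℂ, dt (c * s) (c * t) = Complex.normSq c * dt s t := by
    intro c s t
    simp only [dt, Complex.mul_re, Complex.mul_im, Complex.normSq_apply]
    ring
  rcases mul_self_eq_mul_self_iff.1 (hB 2 2) with h2 | h2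
  · have hc : Complex.normSq ((starRingEnd ℂ) (p 1 - p 0) / (starRingEnd ℂ) (q 1 - q 0)) = 1 := by
      rw [map_div₀, Complex.normSq_conj, Complex.normSq_conj, hab, div_self hna]
    obtain ⟨g, hg⟩ := iso_dir _ (p 0) (q 0) hc
    refine ⟨g, 1, Or.inl rfl, fun i => ?_, fun x y z => ?_⟩
    · have h3 : dt (q 1 - q 0) (q i - q 0) = dt (p 1 - p 0) (p i - p 0) := by
        have h4 := hB 2 i
        rw [h2] at h4
        exact mul_left_cancel₀ hpos.ne' h4
      have h5 : (starRingEnd ℂ) (q 1 - q 0) * (q i - q 0) =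
          (starRingEnd ℂ) (p 1 - p 0) * (p i - p 0) := by
        apply Complex.ext
        · have := H 1 i
          simp only [Complex.mul_re, Complex.conj_re, Complex.conj_im, Complex.sub_re,
            Complex.sub_im]
          linarith
        · simp only [dt, Complex.sub_re, Complex.sub_im] at h3
          simp only [Complex.mul_im, Complex.conj_re, Complex.conj_im, Complex.sub_re,
            Complex.sub_im]
          linarith
      rw [hg, div_mul_eq_mul_div, ← h5, mul_div_cancel_left₀ _ hb, add_sub_cancel]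
    · rw [hg, hg, hg, add_sub_add_left_eq_sub, add_sub_add_left_eq_sub, ← mul_sub, ← mul_sub,
        sub_sub_sub_cancel_right, sub_sub_sub_cancel_right, hm, hc]
  · have hc : Complex.normSq ((p 1 - p 0) / (starRingEnd ℂ) (q 1 - q 0)) = 1 := by
      rw [map_div₀, Complex.normSq_conj, hab, div_self hna]
    obtain ⟨g, hg⟩ := iso_opp _ (p 0) (q 0) hc
    refine ⟨g, -1, Or.inr rfl, fun i => ?_, fun x y z => ?_⟩
    · have h3 : dt (q 1 - q 0) (q i - q 0) = -dt (p 1 - p 0) (p i - p 0) := by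
        have h4 := hB 2 i
        rw [h2] at h4
        apply mul_left_cancel₀ hpos.ne'
        linarith
      have h5 : (starRingEnd ℂ) (q 1 - q 0) * (q i - q 0) =
          (p 1 - p 0) * (starRingEnd ℂ) (p i - p 0) := by
        apply Complex.ext
        · have := H 1 i
          simp only [Complex.mul_re, Complex.conj_re, Complex.conj_im, Complex.sub_re,
            Complex.sub_im]
          linarith
        · simp only [dt, Complex.sub_re, Complex.sub_im] at h3
          simp only [Complex.mul_im, Complex.conj_re, Complex.conj_im, Complex.sub_re,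
            Complex.sub_im]
          linarith
      rw [hg, div_mul_eq_mul_div, ← h5, mul_div_cancel_left₀ _ hb, add_sub_cancel]
    · have h6 : dt ((starRingEnd ℂ) (x - y)) ((starRingEnd ℂ) (z - y)) =
          -dt (x - y) (z - y) := by
        simp only [dt, Complex.conj_re, Complex.conj_im]
        ring
      rw [hg, hg, hg, add_sub_add_left_eq_sub, add_sub_add_left_eq_sub, ← mul_sub, ← mul_sub,
        ← map_sub, ← map_sub, sub_sub_sub_cancel_right, sub_sub_sub_cancel_right, hm, hc, h6,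
        one_mul, neg_one_mul]
-- END row iso

-- BEGIN row img
/-- g is affine (`IsometryEquiv.toRealAffineIsometryEquiv`, `AffineMap.image_convexHull`). -/
theorem img (g : ℂ ≃ᵢ ℂ) (h : ∀ i, q i = g (p i)) :
    g '' convexHull ℝ (range p) = convexHull ℝ (range q) := by
  have e := g.toRealAffineIsometryEquiv.toAffineEquiv.toAffineMap.image_convexHull (range p)
  have hc : (g.toRealAffineIsometryEquiv.toAffineEquiv.toAffineMap : ℂ → ℂ) = g := rfl
  rw [hc] at e
  rw [e, ← range_comp]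
  congr 1
  congr 1
  funext i
  exact (h i).symm
-- END row img

-- BEGIN row adj
private theorem adj_one (hn : 3 ≤ n) : (1 : ZMod n) ≠ 0 := by
  intro h
  have h2 : ((1 : ℕ) : ZMod n) = 0 := by simpa using h
  have h3 := Nat.le_of_dvd (by omega) ((ZMod.natCast_eq_zero_iff 1 n).1 h2)
  omega

/-- a = τ i, b = τ (i+1). If b ≠ a + 1, a - 1: dt (p b - p a) (p k - p a) has the sign σ for all k ≠ a, b (k = τ j, hd, convexity), but it is
- dt (p (a+1) - p a) (p b - p a) < 0 at k = a + 1 and dt (p a - p (a-1)) (p b - p (a-1)) > 0 at k = a - 1. -/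
theorem adj (hn : 3 ≤ n) (hp : ConvexPolygon p) (τ : Equiv.Perm (ZMod n)) (g : ℂ ≃ᵢ ℂ) (σ : ℝ)
    (hσ : σ = 1 ∨ σ = -1) (hg : ∀ i, p (τ i) = g (p i))
    (hd : ∀ x y z, dt (g x - g y) (g z - g y) = σ * dt (x - y) (z - y)) (i : ZMod n) :
    τ (i + 1) = τ i + 1 ∨ τ (i + 1) = τ i - 1 := by
  by_contra hcon
  push Not at hcon
  obtain ⟨c1, c2⟩ := hcon
  have h1 : (1 : ZMod n) ≠ 0 := adj_one hn
  obtain ⟨a, ha⟩ : ∃ a, a = τ i := ⟨_, rfl⟩
  obtain ⟨b, hb⟩ : ∃ b, b = τ (i + 1) := ⟨_, rfl⟩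
  rw [← ha, ← hb] at c1 c2
  have hab : b ≠ a := by
    intro h
    rw [ha, hb] at h
    have h2 := τ.injective h
    apply h1
    linear_combination h2
  have key : ∀ k, k ≠ a → k ≠ b → ∃ r : ℝ, 0 < r ∧ dt (p b - p a) (p k - p a) = σ * r := by
    intro k hka hkb
    refine ⟨dt (p (i + 1) - p i) (p (τ.symm k) - p i), ?_, ?_⟩
    · apply hp
      · intro h
        apply hka
        rw [ha, ← h, Equiv.apply_symm_apply]
      · intro h
        apply hkb
        rw [hb, ← h, Equiv.apply_symm_apply]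
    · have hk : p k = g (p (τ.symm k)) := by
        rw [← hg, Equiv.apply_symm_apply]
      rw [hk, hb, ha, hg, hg]
      exact hd _ _ _
  have ka : a + 1 ≠ a := by
    intro h
    apply h1
    linear_combination h
  have kb : a - 1 ≠ a := by
    intro h
    apply h1
    linear_combination -h
  obtain ⟨r, hr, e1⟩ := key (a + 1) ka (fun h => c1 h.symm)
  obtain ⟨t, ht, e2⟩ := key (a - 1) kb (fun h => c2 h.symm)
  have f1 := hp a b hab c1
  have f2 := hp (a - 1) b c2 (by rw [sub_add_cancel]; exact hab)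
  rw [sub_add_cancel] at f2
  have g1 : dt (p b - p a) (p (a + 1) - p a) = -dt (p (a + 1) - p a) (p b - p a) := by
    unfold dt
    ring
  have g2 : dt (p b - p a) (p (a - 1) - p a) = dt (p a - p (a - 1)) (p b - p (a - 1)) := by
    simp only [dt, Complex.sub_re, Complex.sub_im]
    ring
  rw [g1] at e1
  rw [g2] at e2
  rcases hσ with h | h
  · rw [h] at e1
    linarith
  · rw [h] at e2
    linarith
-- END row adj

-- BEGIN row mirror
private theorem mirror_d (z w : ℂ) : dist z w ^ 2 = (z.re - w.re) ^ 2 + (z.im - w.im) ^ 2 := by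
  rw [Complex.dist_eq, Complex.sq_norm, Complex.normSq_apply, Complex.sub_re, Complex.sub_im]
  ring

/-- u = A' - A ≠ 0: ⟨u, X - C⟩ = 0, so u = s J (X - C) (X ≠ C; X = C is trivial), and |u|² = - 2 ⟨u, A - C⟩. -/
theorem mirror {A A' C X : ℂ} (h1 : dist A' C = dist A C) (h2 : dist A' X = dist A X)
    (hne : A' ≠ A) : dist A' A * dist X C = 2 * |dt (A - C) (X - C)| := by
  have k1 : dist A' C ^ 2 = dist A C ^ 2 := by rw [h1]
  have k2 : dist A' X ^ 2 = dist A X ^ 2 := by rw [h2]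
  have k3 : 0 < dist A' A ^ 2 := pow_pos (dist_pos.2 hne) 2
  rw [mirror_d, mirror_d] at k1 k2
  have e1 := mirror_d A' A
  have e2 := mirror_d X C
  have key : dist A' A ^ 2 * ((dist A' A * dist X C) ^ 2 - (2 * |dt (A - C) (X - C)|) ^ 2) = 0 := by
    rw [mul_pow, mul_pow, sq_abs, e2, e1]
    unfold dt
    simp only [Complex.sub_re, Complex.sub_im]
    have hH : (A'.re - A.re) * (X.re - C.re) + (A'.im - A.im) * (X.im - C.im) = 0 := by
      linear_combination (k1 - k2) / 2
    have hK : (A'.re - A.re) ^ 2 + (A'.im - A.im) ^ 2 +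
        2 * ((A'.re - A.re) * (A.re - C.re) + (A'.im - A.im) * (A.im - C.im)) = 0 := by
      linear_combination k1
    linear_combination (((X.re - C.re) ^ 2 + (X.im - C.im) ^ 2) *
      ((A'.re - A.re) ^ 2 + (A'.im - A.im) ^ 2 -
        2 * ((A'.re - A.re) * (A.re - C.re) + (A'.im - A.im) * (A.im - C.im)))) * hK +
      4 * (2 * ((A'.re - A.re) * (A.re - C.re) + (A'.im - A.im) * (A.im - C.im)) *
        ((A.re - C.re) * (X.re - C.re) + (A.im - C.im) * (X.im - C.im)) -
        ((A.re - C.re) ^ 2 + (A.im - C.im) ^ 2) *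
        ((A'.re - A.re) * (X.re - C.re) + (A'.im - A.im) * (X.im - C.im))) * hH
  have h3 := (mul_eq_zero.1 key).resolve_left k3.ne'
  exact (pow_left_inj₀ (mul_nonneg dist_nonneg dist_nonneg) (by positivity) two_ne_zero).1
    (sub_eq_zero.1 h3)
-- END row mirror

-- BEGIN row flex
private theorem flex_alg (v : ℂ) (t h R1 R2 : ℝ) (hv : v ≠ 0)
    (ht : t = (R1 - R2 + Complex.normSq v) / (2 * Complex.normSq v))
    (hh : h ^ 2 = R1 / Complex.normSq v - t ^ 2) :
    Complex.normSq (v * (t + h * Complex.I)) = R1 ∧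
      Complex.normSq (v * (t + h * Complex.I) - v) = R2 := by
  have hN : Complex.normSq v ≠ 0 := fun h0 => hv (Complex.normSq_eq_zero.1 h0)
  have h1 : Complex.normSq v * (t ^ 2 + h ^ 2) = R1 := by
    rw [hh]
    field_simp
    ring
  have h2 : 2 * Complex.normSq v * t = R1 - R2 + Complex.normSq v := by
    rw [ht]
    field_simp
  refine ⟨?_, ?_⟩
  · rw [map_mul]
    have h3 : Complex.normSq ((t : ℂ) + h * Complex.I) = t ^ 2 + h ^ 2 := by
      rw [Complex.normSq_apply]
      simp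
      ring
    rw [h3, h1]
  · have h3 : v * (t + h * Complex.I) - v = v * (((t - 1 : ℝ) : ℂ) + h * Complex.I) := by
      push_cast
      ring
    have h4 : Complex.normSq (((t - 1 : ℝ) : ℂ) + h * Complex.I) = (t - 1) ^ 2 + h ^ 2 := by
      rw [Complex.normSq_apply]
      simp
      ring
    rw [h3, map_mul, h4]
    linear_combination h1 - h2

private theorem flex_nrm {x y : ℂ} (h : Complex.normSq x = Complex.normSq y) : ‖x‖ = ‖y‖ := by
  rw [Complex.normSq_eq_norm_sq, Complex.normSq_eq_norm_sq] at h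
  exact (sq_eq_sq₀ (norm_nonneg _) (norm_nonneg _)).1 h

/-- A' = C + (A - C) e^{iθ}, θ → 0, θ ≠ 0. d = |A' - D| > 0, t = (r₁² - r₂² + d²)/(2 d²), r₁ = |A - B|, r₂ = |B - D|, h = √(r₁²/d² - t²) (> 0 at
A' = A, since A, B, D are not collinear), B' = A' + (D - A')(t ± i h), the sign with B' = B at A' = A: continuous in A', |B' - A'| = r₁,
|B' - D| = r₂. B' ≠ B for A' near A, A' ≠ A: else `mirror` with X = B gives |A' - A| |B - C| = 2 |dt (A - C) (B - C)|. (May use `mirror`.) -/
theorem flex {A B C D : ℂ} (h1 : dt (A - C) (B - C) ≠ 0) (h2 : dt (B - A) (D - A) ≠ 0) {δ : ℝ}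
    (hδ : 0 < δ) :
    ∃ A' B' : ℂ, A' ≠ A ∧ B' ≠ B ∧ dist A' A < δ ∧ dist B' B < δ ∧ dist A' C = dist A C ∧
      dist A' B' = dist A B ∧ dist B' D = dist B D := by
  have hCA : A - C ≠ 0 := by
    intro h
    rw [h] at h1
    simp [dt] at h1
  have hv : D - A ≠ 0 := by
    intro h
    rw [h] at h2
    simp [dt] at h2
  obtain ⟨w, hBA⟩ : ∃ w : ℂ, B - A = (D - A) * w := ⟨(B - A) / (D - A), by field_simp⟩
  have him : w.im ≠ 0 := by
    intro h0
    apply h2
    rw [hBA]
    simp only [dt, Complex.mul_re, Complex.mul_im, h0]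
    ring
  obtain ⟨s, hs1, hs2⟩ : ∃ s : ℝ, s ^ 2 = 1 ∧ s * |w.im| = w.im := by
    rcases lt_or_gt_of_ne him with h | h
    · exact ⟨-1, by norm_num, by rw [abs_of_neg h]; ring⟩
    · exact ⟨1, by norm_num, by rw [abs_of_pos h]; ring⟩
  let Af : ℝ → ℂ := fun θ => C + (A - C) * Complex.exp (θ * Complex.I)
  let N : ℝ → ℝ := fun θ => Complex.normSq (D - Af θ)
  let t : ℝ → ℝ := fun θ =>
    (Complex.normSq (A - B) - Complex.normSq (B - D) + N θ) / (2 * N θ)
  let h : ℝ → ℝ := fun θ => Complex.normSq (A - B) / N θ - t θ ^ 2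
  let Bf : ℝ → ℂ := fun θ =>
    Af θ + (D - Af θ) * (t θ + ((s * Real.sqrt (h θ) : ℝ) : ℂ) * Complex.I)
  have hA0 : Af 0 = A := by simp [Af]
  have hN0 : N 0 = Complex.normSq (D - A) := by simp only [N, hA0]
  have hn : Complex.normSq (D - A) ≠ 0 := fun h0 => hv (Complex.normSq_eq_zero.1 h0)
  have e1 : Complex.normSq (A - B) = Complex.normSq (D - A) * (w.re ^ 2 + w.im ^ 2) := by
    rw [← neg_sub B A, Complex.normSq_neg, hBA, map_mul, Complex.normSq_apply w]
    ring
  have e2 : Complex.normSq (B - D) =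
      Complex.normSq (D - A) * ((w.re - 1) ^ 2 + w.im ^ 2) := by
    rw [show B - D = (D - A) * (w - 1) by linear_combination hBA, map_mul,
      Complex.normSq_apply (w - 1)]
    simp only [Complex.sub_re, Complex.sub_im, Complex.one_re, Complex.one_im]
    ring
  have ht0 : t 0 = w.re := by
    simp only [t, hN0, e1, e2]
    field_simp
    ring
  have hh0 : h 0 = w.im ^ 2 := by
    simp only [h, ht0, hN0, e1]
    field_simp
    ring
  have hB0 : Bf 0 = B := by
    simp only [Bf, hA0, ht0, hh0, Real.sqrt_sq_eq_abs, hs2]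
    rw [Complex.re_add_im, ← hBA]
    ring
  have cA : Continuous Af := by
    simp only [Af]
    fun_prop
  have cN : Continuous N := Complex.continuous_normSq.comp (continuous_const.sub cA)
  have ct : ContinuousAt t 0 := by
    refine ContinuousAt.div (continuousAt_const.add cN.continuousAt)
      (continuousAt_const.mul cN.continuousAt) ?_
    rw [hN0]
    exact mul_ne_zero two_ne_zero hn
  have ch : ContinuousAt h 0 :=
    (continuousAt_const.div cN.continuousAt (by rw [hN0]; exact hn)).sub (ct.pow 2)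
  have cB : ContinuousAt Bf 0 := by
    refine cA.continuousAt.add ((continuousAt_const.sub cA.continuousAt).mul
      ((Complex.continuous_ofReal.continuousAt.comp ct).add ((
        Complex.continuous_ofReal.continuousAt.comp (continuousAt_const.mul
          (Real.continuous_sqrt.continuousAt.comp ch))).mul continuousAt_const)))
  have E1 : ∀ᶠ θ in nhds (0 : ℝ), dist (Af θ) A < δ :=
    (cA.continuousAt.dist continuousAt_const).eventually_lt continuousAt_const (by
      simpa only [hA0, dist_self] using hδ)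
  have E2 : ∀ᶠ θ in nhds (0 : ℝ), dist (Bf θ) B < δ :=
    (cB.dist continuousAt_const).eventually_lt continuousAt_const (by
      simpa only [hB0, dist_self] using hδ)
  have E3 : ∀ᶠ θ in nhds (0 : ℝ), dist (Af θ) A * dist B C < 2 * |dt (A - C) (B - C)| :=
    ((cA.continuousAt.dist continuousAt_const).mul continuousAt_const).eventually_lt
      continuousAt_const (by
        simp only [hA0, dist_self, zero_mul]
        exact mul_pos two_pos (abs_pos.2 h1))
  have E4 : ∀ᶠ θ in nhds (0 : ℝ), 0 < h θ :=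
    continuousAt_const.eventually_lt ch (by
      rw [hh0]
      positivity)
  have E5 : ∀ᶠ θ in nhds (0 : ℝ), 0 < N θ :=
    continuousAt_const.eventually_lt cN.continuousAt (by
      rw [hN0]
      exact lt_of_le_of_ne (Complex.normSq_nonneg _) (Ne.symm hn))
  obtain ⟨ε, hε, hball⟩ := Metric.eventually_nhds_iff.1
    (E1.and (E2.and (E3.and (E4.and E5))))
  have hθ0 : 0 < min (ε / 2) 1 := lt_min (by linarith) one_pos
  obtain ⟨a1, a2, a3, a4, a5⟩ := @hball (min (ε / 2) 1) (by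
    rw [Real.dist_eq, sub_zero, abs_of_pos hθ0]
    exact (min_le_left _ _).trans_lt (by linarith))
  generalize hθe : min (ε / 2) 1 = θ at hθ0 a1 a2 a3 a4 a5
  have hθ1 : θ ≤ 1 := hθe ▸ min_le_right _ _
  have hne : Af θ ≠ A := by
    intro h0
    have h3 : (A - C) * (Complex.exp (θ * Complex.I) - 1) = 0 := by
      simp only [Af] at h0
      linear_combination h0
    rcases mul_eq_zero.1 h3 with h4 | h4
    · exact hCA h4
    · have h5 := congrArg Complex.im h4
      rw [Complex.sub_im, Complex.exp_ofReal_mul_I_im] at h5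
      simp only [Complex.one_im, sub_zero, Complex.zero_im] at h5
      exact (Real.sin_pos_of_pos_of_lt_pi hθ0 (by linarith [Real.pi_gt_three])).ne' h5
  have hAC : dist (Af θ) C = dist A C := by
    rw [dist_eq_norm, dist_eq_norm]
    simp only [Af, add_sub_cancel_left]
    rw [norm_mul, Complex.norm_exp_ofReal_mul_I, mul_one]
  have hvθ : D - Af θ ≠ 0 := by
    intro h0
    simp only [N, h0, map_zero, lt_irrefl] at a5
  obtain ⟨b1, b2⟩ := flex_alg (D - Af θ) (t θ) (s * Real.sqrt (h θ)) (Complex.normSq (A - B))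
    (Complex.normSq (B - D)) hvθ rfl (by
      rw [mul_pow, hs1, one_mul, Real.sq_sqrt a4.le])
  have hAB : dist (Af θ) (Bf θ) = dist A B := by
    rw [dist_comm, dist_eq_norm, dist_eq_norm]
    apply flex_nrm
    rw [← b1]
    congr 1
    simp only [Bf]
    ring
  have hBD : dist (Bf θ) D = dist B D := by
    rw [dist_eq_norm, dist_eq_norm]
    apply flex_nrm
    rw [← b2]
    congr 1
    simp only [Bf]
    ring
  refine ⟨Af θ, Bf θ, hne, fun hBB => ?_, a1, a2, hAC, hAB, hBD⟩
  rw [hBB] at hAB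
  exact a3.ne (mirror hAC hAB hne)
-- END row flex

-- BEGIN row far
private theorem far_mul {A A' C X : ℂ} {m : ℝ} (hm : m * dist X C ≤ 2 * |dt (A - C) (X - C)|)
    (hX : 0 < |dt (A - C) (X - C)|) (h1 : dist A' C = dist A C) (hne : A' ≠ A)
    (hlt : dist A' A < m) : dist A' X ≠ dist A X := by
  intro h2
  have h3 := mirror h1 h2 hne
  have h4 : 0 < dist X C := by
    rcases (dist_nonneg (x := X) (y := C)).eq_or_lt with h | h
    · rw [← h, mul_zero] at h3
      linarith
    · exact h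
  have h5 := mul_lt_mul_of_pos_right hlt h4
  linarith

private theorem far_min {ι : Type} [Finite ι] (P : ι → Prop) (a b : ι → ℝ) (hb : ∀ x, P x → 0 < b x)
    (ha : ∀ x, 0 ≤ a x) : ∃ δ : ℝ, 0 < δ ∧ ∀ x, P x → δ * a x ≤ b x := by
  classical
  cases isEmpty_or_nonempty ι with
  | inl h => exact ⟨1, one_pos, fun x => (h.false x).elim⟩
  | inr h =>
    obtain ⟨x0, hx0⟩ := Finite.exists_min (fun x : ι => if P x then b x / (a x + 1) else 1)
    have hpos : ∀ x, 0 < (if P x then b x / (a x + 1) else (1 : ℝ)) := by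
      intro x
      split_ifs with h
      · have := hb x h
        have := ha x
        positivity
      · exact one_pos
    refine ⟨_, hpos x0, fun x hx => ?_⟩
    have h1 := hx0 x
    simp only [hx, if_true] at h1
    have h2 := ha x
    have h3 := hb x hx
    refine (mul_le_mul_of_nonneg_right h1 h2).trans ?_
    rw [div_mul_eq_mul_div, div_le_iff₀ (by positivity)]
    nlinarith

/-- `mirror` with C = p₀ (k ± 1), X = p₀ j (dt (A - C) (X - C) ≠ 0 by convexity of the edge k - 1 → k, or k → k + 1): δ below the finitely many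
2 |dt (p₀ k - p₀ (k ± 1)) (p₀ j - p₀ (k ± 1))| / dist (p₀ j) (p₀ (k ± 1)). -/
theorem far (hn : 3 ≤ n) (hp : ConvexPolygon p₀) :
    ∃ δ : ℝ, 0 < δ ∧ ∀ (k : ZMod n) (A : ℂ), A ≠ p₀ k → dist A (p₀ k) < δ →
      (dist A (p₀ (k - 1)) = dist (p₀ k) (p₀ (k - 1)) →
        ∀ j, j ≠ k → j ≠ k - 1 → dist A (p₀ j) ≠ dist (p₀ k) (p₀ j)) ∧
      (dist A (p₀ (k + 1)) = dist (p₀ k) (p₀ (k + 1)) →
        ∀ j, j ≠ k → j ≠ k + 1 → dist A (p₀ j) ≠ dist (p₀ k) (p₀ j)) := by
  have : NeZero n := ⟨by omega⟩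
  have c1 : ∀ k j : ZMod n, j ≠ k → j ≠ k - 1 →
      0 < |dt (p₀ k - p₀ (k - 1)) (p₀ j - p₀ (k - 1))| := by
    intro k j h1 h2
    have h3 := hp (k - 1) j h2 (by rwa [sub_add_cancel])
    rw [sub_add_cancel] at h3
    exact abs_pos.2 h3.ne'
  have c2 : ∀ k j : ZMod n, j ≠ k → j ≠ k + 1 →
      0 < |dt (p₀ k - p₀ (k + 1)) (p₀ j - p₀ (k + 1))| := by
    intro k j h1 h2
    have h3 := hp k j h1 h2
    have h4 : dt (p₀ k - p₀ (k + 1)) (p₀ j - p₀ (k + 1)) = -dt (p₀ (k + 1) - p₀ k) (p₀ j - p₀ k) := by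
      unfold dt
      simp only [Complex.sub_re, Complex.sub_im]
      ring
    rw [h4, abs_neg]
    exact abs_pos.2 h3.ne'
  obtain ⟨δ1, hδ1, H1⟩ := far_min (fun x : ZMod n × ZMod n => x.2 ≠ x.1 ∧ x.2 ≠ x.1 - 1)
    (fun x => dist (p₀ x.2) (p₀ (x.1 - 1)))
    (fun x => 2 * |dt (p₀ x.1 - p₀ (x.1 - 1)) (p₀ x.2 - p₀ (x.1 - 1))|)
    (fun x hx => by have := c1 x.1 x.2 hx.1 hx.2; positivity) (fun x => dist_nonneg)
  obtain ⟨δ2, hδ2, H2⟩ := far_min (fun x : ZMod n × ZMod n => x.2 ≠ x.1 ∧ x.2 ≠ x.1 + 1)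
    (fun x => dist (p₀ x.2) (p₀ (x.1 + 1)))
    (fun x => 2 * |dt (p₀ x.1 - p₀ (x.1 + 1)) (p₀ x.2 - p₀ (x.1 + 1))|)
    (fun x hx => by have := c2 x.1 x.2 hx.1 hx.2; positivity) (fun x => dist_nonneg)
  refine ⟨min δ1 δ2, lt_min hδ1 hδ2, fun k A hA hlt => ⟨fun h1 j hj1 hj2 => ?_, fun h1 j hj1 hj2 => ?_⟩⟩
  · exact far_mul (H1 (k, j) ⟨hj1, hj2⟩) (c1 k j hj1 hj2) h1 hA (hlt.trans_le (min_le_left _ _))
  · exact far_mul (H2 (k, j) ⟨hj1, hj2⟩) (c2 k j hj1 hj2) h1 hA (hlt.trans_le (min_le_right _ _))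
-- END row far

-- BEGIN row comb
private theorem comb_cast {k : ℕ} (hk : 0 < k) (hk3 : k < n) : ((k : ℕ) : ZMod n) ≠ 0 := by
  intro h
  have h1 := (ZMod.natCast_eq_zero_iff k n).1 h
  have h2 := Nat.le_of_dvd hk h1
  omega

private theorem comb_two {i w b : ZMod n} (h1 : w ≠ i + 1) (h2 : w ≠ i + 2) (h : Ch i w b) :
    b = i + 1 ∨ b = i + 2 := by
  rcases h with ⟨h, -⟩ | ⟨h, -⟩ | ⟨h, -⟩ | ⟨h, -⟩
  · exact absurd h h1
  · exact Or.inl h
  · exact absurd h h2
  · exact Or.inr h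

private theorem comb_pig {i w : ZMod n} (τ : Equiv.Perm (ZMod n)) {x y z : ZMod n} (hxy : x ≠ y)
    (hxz : x ≠ z) (hyz : y ≠ z) (h1 : Ch i (τ w) (τ x)) (h2 : Ch i (τ w) (τ y))
    (h3 : Ch i (τ w) (τ z)) : τ w = i + 1 ∨ τ w = i + 2 := by
  by_contra hcon
  push Not at hcon
  have g1 := comb_two hcon.1 hcon.2 h1
  have g2 := comb_two hcon.1 hcon.2 h2
  have g3 := comb_two hcon.1 hcon.2 h3
  rcases g1 with g1 | g1 <;> rcases g2 with g2 | g2 <;> rcases g3 with g3 | g3
  · exact hxy (τ.injective (g1.trans g2.symm))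
  · exact hxy (τ.injective (g1.trans g2.symm))
  · exact hxz (τ.injective (g1.trans g3.symm))
  · exact hyz (τ.injective (g2.trans g3.symm))
  · exact hyz (τ.injective (g2.trans g3.symm))
  · exact hxz (τ.injective (g1.trans g3.symm))
  · exact hxy (τ.injective (g1.trans g2.symm))
  · exact hxy (τ.injective (g1.trans g2.symm))

private instance comb_dec (i a b : ZMod 5) : Decidable (Ch i a b) :=
  inferInstanceAs (Decidable ((a = i + 1 ∧ b ≠ i ∧ b ≠ i + 1 ∧ b ≠ i + 2) ∨
    (b = i + 1 ∧ a ≠ i ∧ a ≠ i + 1 ∧ a ≠ i + 2) ∨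
    (a = i + 2 ∧ b ≠ i + 1 ∧ b ≠ i + 2 ∧ b ≠ i + 3) ∨
    (b = i + 2 ∧ a ≠ i + 1 ∧ a ≠ i + 2 ∧ a ≠ i + 3)))

private theorem comb_five1 : ∀ j i : ZMod 5, i ≠ j → Ch i j (j + 3) := by
  decide

private theorem comb_five2 : ∀ j x y : ZMod 5, Ch (j + 1) x y → Ch (j + 2) x y → Ch (j + 3) x y →
    Ch (j + 4) x y → (x = j ∧ y = j + 3) ∨ (x = j + 3 ∧ y = j) := by
  decide

private theorem comb_five4 : ∀ j : ZMod 5, j + 1 ≠ j ∧ j + 2 ≠ j ∧ j + 3 ≠ j ∧ j + 4 ≠ j := by
  decide

private theorem comb_five3 : ∀ v w : ZMod 5, (w = v ∨ w = v + 3) → (w = v ∨ w = v + 2) → w = v := by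
  decide

private theorem comb_five (τ : Equiv.Perm (ZMod 5))
    (h : ∀ i a b, Ch i a b → Ch i (τ a) (τ b)) (v : ZMod 5) : τ v = v := by
  have key : ∀ j : ZMod 5, (τ j = j ∧ τ (j + 3) = j + 3) ∨ (τ j = j + 3 ∧ τ (j + 3) = j) :=
    fun j => comb_five2 j _ _ (h _ _ _ (comb_five1 j _ (comb_five4 j).1))
      (h _ _ _ (comb_five1 j _ (comb_five4 j).2.1)) (h _ _ _ (comb_five1 j _ (comb_five4 j).2.2.1))
      (h _ _ _ (comb_five1 j _ (comb_five4 j).2.2.2))
  have e : ∀ v : ZMod 5, v + 2 + 3 = v := by decide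
  have k1 := key v
  have k2 := key (v + 2)
  rw [e] at k2
  refine comb_five3 v (τ v) ?_ ?_
  · rcases k1 with k1 | k1
    · exact Or.inl k1.1
    · exact Or.inr k1.1
  · rcases k2 with k2 | k2
    · exact Or.inl k2.2
    · exact Or.inr k2.2

/-- n ≥ 6: i + 1 has the three `Ch i`-neighbours i + 3, i + 4, i + 5; a vertex not in {i+1, i+2} has all its neighbours in {i+1, i+2}: so
τ (i+1) ∈ {i+1, i+2}; the same for i + 2 (neighbours i, i + 4, i + 5). So τ v ∈ {v, v+1} ∩ {v-1, v}. n = 5: ¬ Ch i a b, a ≠ b: sides and {i, i+3};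
every diagonal {j, j+3} is Ch i for all i ≠ j, so τ maps it to a diagonal which is Ch i for all i ≠ j, i.e. to itself; v is in two diagonals. -/
theorem comb (hn : 5 ≤ n) (τ : Equiv.Perm (ZMod n))
    (h : ∀ i a b, Ch i a b → Ch i (τ a) (τ b)) (v : ZMod n) : τ v = v := by
  rcases Nat.lt_or_ge 5 n with h6 | h6
  · have c1 : (1 : ZMod n) ≠ 0 := by
      have := comb_cast (n := n) (k := 1) (by norm_num) (by omega)
      simpa using this
    have c2 : (2 : ZMod n) ≠ 0 := by
      have := comb_cast (n := n) (k := 2) (by norm_num) (by omega)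
      simpa using this
    have c3 : (3 : ZMod n) ≠ 0 := by
      have := comb_cast (n := n) (k := 3) (by norm_num) (by omega)
      simpa using this
    have c4 : (4 : ZMod n) ≠ 0 := by
      have := comb_cast (n := n) (k := 4) (by norm_num) (by omega)
      simpa using this
    have c5 : (5 : ZMod n) ≠ 0 := by
      have := comb_cast (n := n) (k := 5) (by norm_num) (by omega)
      simpa using this
    have s1 : ∀ i : ZMod n, τ (i + 1) = i + 1 ∨ τ (i + 1) = i + 2 := by
      intro i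
      have d3 : Ch i (i + 1) (i + 3) := Or.inl ⟨rfl, fun h => c3 (by linear_combination h),
        fun h => c2 (by linear_combination h), fun h => c1 (by linear_combination h)⟩
      have d4 : Ch i (i + 1) (i + 4) := Or.inl ⟨rfl, fun h => c4 (by linear_combination h),
        fun h => c3 (by linear_combination h), fun h => c2 (by linear_combination h)⟩
      have d5 : Ch i (i + 1) (i + 5) := Or.inl ⟨rfl, fun h => c5 (by linear_combination h),
        fun h => c4 (by linear_combination h), fun h => c3 (by linear_combination h)⟩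
      exact comb_pig τ (x := i + 3) (y := i + 4) (z := i + 5)
        (fun h => c1 (by linear_combination -h)) (fun h => c2 (by linear_combination -h))
        (fun h => c1 (by linear_combination -h)) (h _ _ _ d3) (h _ _ _ d4) (h _ _ _ d5)
    have s2 : ∀ i : ZMod n, τ (i + 2) = i + 1 ∨ τ (i + 2) = i + 2 := by
      intro i
      have d0 : Ch i (i + 2) i := Or.inr (Or.inr (Or.inl ⟨rfl, fun h => c1 (by linear_combination -h),
        fun h => c2 (by linear_combination -h), fun h => c3 (by linear_combination -h)⟩))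
      have d4 : Ch i (i + 2) (i + 4) := Or.inr (Or.inr (Or.inl ⟨rfl,
        fun h => c3 (by linear_combination h),
        fun h => c2 (by linear_combination h), fun h => c1 (by linear_combination h)⟩))
      have d5 : Ch i (i + 2) (i + 5) := Or.inr (Or.inr (Or.inl ⟨rfl,
        fun h => c4 (by linear_combination h),
        fun h => c3 (by linear_combination h), fun h => c2 (by linear_combination h)⟩))
      exact comb_pig τ (x := i) (y := i + 4) (z := i + 5)
        (fun h => c4 (by linear_combination -h)) (fun h => c5 (by linear_combination -h))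
        (fun h => c1 (by linear_combination -h)) (h _ _ _ d0) (h _ _ _ d4) (h _ _ _ d5)
    have t1 := s1 (v - 1)
    have t2 := s2 (v - 2)
    have e1 : v - 1 + 1 = v := by ring
    have e2 : v - 1 + 2 = v + 1 := by ring
    have e3 : v - 2 + 2 = v := by ring
    have e4 : v - 2 + 1 = v - 1 := by ring
    rw [e1, e2] at t1
    rw [e3, e4] at t2
    rcases t1 with t1 | t1
    · exact t1
    · rcases t2 with t2 | t2
      · exact absurd (by linear_combination t1 - t2 : (0 : ZMod n) = 2) (fun h => c2 h.symm)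
      · exact t2
  · have h5 : n = 5 := by omega
    subst h5
    exact comb_five τ h v
-- END row comb

-- BEGIN row move
/-- p = p₀ except at i + 1, i + 2: A', B' of `flex` with C = p₀ i, A = p₀ (i+1), B = p₀ (i+2), D = p₀ (i+3), δ = min of ε and `far`. -/
theorem move (hn : 5 ≤ n) (hp : ConvexPolygon p₀) (i : ZMod n) {ε : ℝ} (hε : 0 < ε) :
    ∃ p : ZMod n → ℂ, (∀ k, dist (p k) (p₀ k) < ε) ∧
      (∀ k, dist (p k) (p (k + 1)) = dist (p₀ k) (p₀ (k + 1))) ∧
      (∀ a b, Ch i a b → dist (p a) (p b) ≠ dist (p₀ a) (p₀ b)) ∧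
      ∀ a b, ¬ Ch i a b → dist (p a) (p b) = dist (p₀ a) (p₀ b) := by
  classical
  have cc : ∀ k : ℕ, 0 < k → k < n → ((k : ℕ) : ZMod n) ≠ 0 := by
    intro k h1 h2 h3
    rw [ZMod.natCast_eq_zero_iff] at h3
    exact absurd (Nat.le_of_dvd h1 h3) (by omega)
  have c1 : (1 : ZMod n) ≠ 0 := by exact_mod_cast cc 1 (by norm_num) (by omega)
  have c2 : (2 : ZMod n) ≠ 0 := by exact_mod_cast cc 2 (by norm_num) (by omega)
  have c3 : (3 : ZMod n) ≠ 0 := by exact_mod_cast cc 3 (by norm_num) (by omega)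
  have e01 : i ≠ i + 1 := fun h => c1 (by linear_combination -h)
  have e02 : i ≠ i + 2 := fun h => c2 (by linear_combination -h)
  have e03 : i ≠ i + 3 := fun h => c3 (by linear_combination -h)
  have e12 : i + 1 ≠ i + 2 := fun h => c1 (by linear_combination -h)
  have e13 : i + 1 ≠ i + 3 := fun h => c2 (by linear_combination -h)
  have e23 : i + 2 ≠ i + 3 := fun h => c1 (by linear_combination -h)
  have s1 : i + 1 - 1 = i := by ring
  have s2 : i + 1 + 1 = i + 2 := by ring
  have s3 : i + 2 + 1 = i + 3 := by ring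
  obtain ⟨δ, hδ, hfar⟩ := far (by omega) hp
  have h1 : dt (p₀ (i + 1) - p₀ i) (p₀ (i + 2) - p₀ i) ≠ 0 := (hp i (i + 2) e02.symm e12.symm).ne'
  have h2 : dt (p₀ (i + 2) - p₀ (i + 1)) (p₀ (i + 3) - p₀ (i + 1)) ≠ 0 := by
    have h := hp (i + 1) (i + 3) e13.symm (by rw [s2]; exact e23.symm)
    rw [s2] at h
    exact h.ne'
  obtain ⟨A', B', hA, hB, hA1, hB1, hAC, hAB, hBD⟩ := flex h1 h2 (lt_min hε hδ)
  obtain ⟨p, hpd⟩ : ∃ p : ZMod n → ℂ, p = fun k => if k = i + 1 then A' else
    if k = i + 2 then B' else p₀ k := ⟨_, rfl⟩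
  have pA : p (i + 1) = A' := by rw [hpd]; simp
  have pB : p (i + 2) = B' := by rw [hpd]; simp [e12.symm]
  have pO : ∀ k, k ≠ i + 1 → k ≠ i + 2 → p k = p₀ k := by
    intro k h3 h4
    rw [hpd]
    simp [h3, h4]
  have fA : ∀ j, j ≠ i + 1 → j ≠ i → dist A' (p₀ j) ≠ dist (p₀ (i + 1)) (p₀ j) := by
    intro j h3 h4
    refine (hfar (i + 1) A' hA (hA1.trans_le (min_le_right _ _))).1 ?_ j h3 (by rw [s1]; exact h4)
    rw [s1]
    exact hAC
  have fB : ∀ j, j ≠ i + 2 → j ≠ i + 3 → dist B' (p₀ j) ≠ dist (p₀ (i + 2)) (p₀ j) := by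
    intro j h3 h4
    refine (hfar (i + 2) B' hB (hB1.trans_le (min_le_right _ _))).2 ?_ j h3 (by rw [s3]; exact h4)
    rw [s3]
    exact hBD
  have key : ∀ a b, ¬ Ch i a b → dist (p a) (p b) = dist (p₀ a) (p₀ b) := by
    intro a b hab
    unfold Ch at hab
    push Not at hab
    obtain ⟨k1, k2, k3, k4⟩ := hab
    by_cases a1 : a = i + 1
    · by_cases b0 : b = i
      · rw [a1, b0, pA, pO i e01 e02]
        exact hAC
      by_cases b1 : b = i + 1
      · rw [a1, b1, dist_self, dist_self]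
      have b2 : b = i + 2 := k1 a1 b0 b1
      rw [a1, b2, pA, pB]
      exact hAB
    by_cases a2 : a = i + 2
    · by_cases b1 : b = i + 1
      · rw [a2, b1, pA, pB, dist_comm, hAB, dist_comm]
      by_cases b2 : b = i + 2
      · rw [a2, b2, dist_self, dist_self]
      have b3 : b = i + 3 := k3 a2 b1 b2
      rw [a2, b3, pB, pO (i + 3) e13.symm e23.symm]
      exact hBD
    by_cases b1 : b = i + 1
    · have a0 : a = i := by
        by_contra h
        exact a2 (k2 b1 h a1)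
      rw [a0, b1, pA, pO i e01 e02, dist_comm, hAC, dist_comm]
    by_cases b2 : b = i + 2
    · have a3 : a = i + 3 := k4 b2 a1 a2
      rw [a3, b2, pB, pO (i + 3) e13.symm e23.symm, dist_comm, hBD, dist_comm]
    rw [pO a a1 a2, pO b b1 b2]
  refine ⟨p, ?_, ?_, ?_, key⟩
  · intro k
    by_cases k1 : k = i + 1
    · rw [k1, pA]
      exact hA1.trans_le (min_le_left _ _)
    by_cases k2 : k = i + 2
    · rw [k2, pB]
      exact hB1.trans_le (min_le_left _ _)
    rw [pO k k1 k2, dist_self]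
    exact hε
  · intro k
    apply key
    unfold Ch
    rintro (⟨h3, -, -, h4⟩ | ⟨h3, h4, -, -⟩ | ⟨h3, -, -, h4⟩ | ⟨h3, h4, -, -⟩)
    · exact h4 (by rw [h3, s2])
    · exact h4 (by linear_combination h3)
    · exact h4 (by rw [h3, s3])
    · exact h4 (by linear_combination h3)
  · rintro a b (⟨h3, h4, h5, h6⟩ | ⟨h3, h4, h5, h6⟩ | ⟨h3, h4, h5, h6⟩ | ⟨h3, h4, h5, h6⟩)
    · rw [h3, pA, pO b h5 h6]
      exact fA b h5 h4
    · rw [h3, pA, pO a h5 h6, dist_comm, dist_comm (p₀ a)]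
      exact fA a h5 h4
    · rw [h3, pB, pO b h4 h5]
      exact fB b h5 h6
    · rw [h3, pB, pO a h4 h5, dist_comm, dist_comm (p₀ a)]
      exact fB a h5 h6
-- END row move

-- BEGIN row ex
/-- `comb`: some i, a, b with Ch i a b, ¬ Ch i (τ a) (τ b). p from `move`, g from `iso` (q := p₀ ∘ τ), q k = g.symm (p (τ k)). Sides: `adj`. -/
theorem ex (hn : 5 ≤ n) (hp : ConvexPolygon p₀) (τ : Equiv.Perm (ZMod n)) (hτ : τ ≠ 1)
    (hd : ∀ i j, dist (p₀ (τ i)) (p₀ (τ j)) = dist (p₀ i) (p₀ j)) {ε : ℝ} (hε : 0 < ε) :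
    ∃ p q : ZMod n → ℂ, (∀ i, dist (p i) (p₀ i) < ε) ∧ (∀ i, dist (q i) (p₀ i) < ε) ∧
      (∀ i, dist (p i) (p (i + 1)) = dist (q i) (q (i + 1))) ∧
      (∀ i j, dist (q i) (q j) = dist (p (τ i)) (p (τ j))) ∧
      ¬ ∀ i j, dist (p i) (p j) = dist (q i) (q j) := by
  obtain ⟨i, a, b, h1, h2⟩ : ∃ i a b, Ch i a b ∧ ¬ Ch i (τ a) (τ b) := by
    by_contra hc
    have hc' : ∀ i a b, Ch i a b → Ch i (τ a) (τ b) := by
      intro i a b h
      by_contra h'
      exact hc ⟨i, a, b, h, h'⟩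
    exact hτ (Equiv.ext fun v => comb hn τ hc' v)
  obtain ⟨p, hp1, hp2, hp3, hp4⟩ := move hn hp i hε
  obtain ⟨g, σ, hσ, hg, hgd⟩ := iso (p := p₀) (q := fun i => p₀ (τ i)) (by omega) hp hd
  have hg' : ∀ k, p₀ (τ k) = g (p₀ k) := hg
  have hgs : ∀ k, g.symm (p₀ (τ k)) = p₀ k := fun k => by
    rw [hg' k, IsometryEquiv.symm_apply_apply]
  have hq : ∀ k l, dist (g.symm (p (τ k))) (g.symm (p (τ l))) = dist (p (τ k)) (p (τ l)) :=
    fun k l => g.symm.dist_eq _ _
  refine ⟨p, fun k => g.symm (p (τ k)), hp1, fun k => ?_, fun k => ?_, hq, fun hall => ?_⟩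
  · show dist (g.symm (p (τ k))) (p₀ k) < ε
    have e1 : dist (g.symm (p (τ k))) (p₀ k) = dist (p (τ k)) (p₀ (τ k)) := by
      conv_lhs => rw [← hgs k]
      exact g.symm.dist_eq _ _
    rw [e1]
    exact hp1 (τ k)
  · show dist (p k) (p (k + 1)) = dist (g.symm (p (τ k))) (g.symm (p (τ (k + 1))))
    rw [hq, hp2 k, ← hd k (k + 1)]
    rcases adj (by omega) hp τ g σ hσ hg' hgd k with h | h
    · rw [h, hp2]
    · rw [h]
      have e1 := hp2 (τ k - 1)
      rw [sub_add_cancel] at e1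
      rw [dist_comm, ← e1, dist_comm]
  · have e1 := hall a b
    rw [show dist ((fun k => g.symm (p (τ k))) a) ((fun k => g.symm (p (τ k))) b) =
      dist (p (τ a)) (p (τ b)) from hq a b, hp4 _ _ h2, hd] at e1
    exact hp3 a b h1 e1
-- END row ex

end Pool.Agent.Gpe
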