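import Pool.Agent.Gpe.Main
import Pool.Agent.Gpe.Ex

set_option autoImplicit false

namespace Pool.Agent.Gpe

open Set Pool.Agent.Gpc

variable {n : ℕ} {p q : ZMod n → ℂ}

/-- If the distances between the corners of `q` are those between the corners `p (τ i)`, then the hulls are
congruent. -/
theorem back (hn : 3 ≤ n) (hq : ConvexPolygon q) (τ : Equiv.Perm (ZMod n))
    (h : ∀ i j, dist (q i) (q j) = dist (p (τ i)) (p (τ j))) :
    ∃ g : ℂ ≃ᵢ ℂ, g '' convexHull ℝ (range p) = convexHull ℝ (range q) := by
  obtain ⟨g, -, -, hg, -⟩ := iso (q := fun i => p (τ i)) hn hq fun i j => (h i j).symm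
  have h1 := img (p := q) (q := fun i => p (τ i)) g hg
  have h2 : range (fun i => p (τ i)) = range p := τ.surjective.range_comp p
  rw [h2] at h1
  refine ⟨g.symm, ?_⟩
  rw [← h1, image_image]
  simp

end Pool.Agent.Gpe
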