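import Pool.Agent.Gpe.Rows
import Pool.Agent.Gpd.Main

set_option autoImplicit false

namespace Pool.Agent.Gpe

open Set Pool.Agent.Gpc

variable {n : ℕ} {p₀ : ZMod n → ℂ}

theorem main (hn : 3 ≤ n) (hp : ConvexPolygon p₀) {r : ℝ} (hr : 0 < r) :
    ∃ ε η : ℝ, 0 < ε ∧ 0 < η ∧ ∀ p q : ZMod n → ℂ, (∀ i, dist (p i) (p₀ i) < ε) →
      (∀ i, dist (q i) (p₀ i) < ε) →
      ConvexPolygon p ∧ ConvexPolygon q ∧
        (∀ x : ℂ, Metric.closedBall x r ⊆ convexHull ℝ (range p) →
          ∀ (y : ℂ) (l : List (Bool × ℂ)), Gpd.IsPath p q l → l.head? = some (true, x) →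
            l.getLast? = some (true, y) → dist x y + η * lenBack l ≤ len l ∧
              (len l = dist x y → ∀ u ∈ l, Gpd.OnSegment p q x y u)) ∧
        (∀ g : ℂ ≃ᵢ ℂ, g '' convexHull ℝ (range p) = convexHull ℝ (range q) →
          ∃ τ : Equiv.Perm (ZMod n),
            (∀ i j, dist (p₀ (τ i)) (p₀ (τ j)) = dist (p₀ i) (p₀ j)) ∧
              ∀ i j, dist (q i) (q j) = dist (p (τ i)) (p (τ j))) := by
  obtain ⟨ε1, m, R, hε1, hm, hR, h1⟩ := opn2 hn hp
  obtain ⟨ε2, hε2, h2⟩ := fin hn p₀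
  have hρ : 0 < r * m := mul_pos hr hm
  obtain ⟨ρ, hρe⟩ : ∃ ρ : ℝ, ρ = r * m := ⟨_, rfl⟩
  rw [← hρe] at hρ
  have hc0 : 0 < ρ ^ 2 / (64 * R ^ 4) := by positivity
  obtain ⟨c, hc⟩ : ∃ c : ℝ, c = min (ρ ^ 2 / (64 * R ^ 4)) 1 := ⟨_, rfl⟩
  have hc1 : 0 < c := by rw [hc]; exact lt_min hc0 one_pos
  have hc2 : c ≤ 1 := by rw [hc]; exact min_le_right _ _
  have hc3 : c ≤ ρ ^ 2 / (64 * R ^ 4) := by rw [hc]; exact min_le_left _ _
  obtain ⟨ε3, hε3, h3⟩ := Gpd.seam hn hp (δ := c / 2) (by linarith) (by linarith)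
  refine ⟨min ε1 (min ε2 ε3), c / 4, lt_min hε1 (lt_min hε2 hε3), by linarith,
    fun p q hpp hqq => ?_⟩
  obtain ⟨h4, h5, h6⟩ := h1 p fun i => (hpp i).trans_le (min_le_left _ _)
  obtain ⟨h4', -, -⟩ := h1 q fun i => (hqq i).trans_le (min_le_left _ _)
  refine ⟨h4, h4', fun x hxx => ?_, fun g hg => ?_⟩
  · intro y l hl hh he
    have h7 : ‖x‖ ≤ R := by
      have e1 : x ∈ convexHull ℝ (range p) := hxx (Metric.mem_closedBall_self hr.le)
      have e2 : convexHull ℝ (range p) ⊆ Metric.closedBall 0 R := by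
        refine convexHull_min ?_ (convex_closedBall _ _)
        rintro _ ⟨i, rfl⟩
        rw [mem_closedBall_zero_iff]
        exact h5 i
      have e3 := e2 e1
      rwa [mem_closedBall_zero_iff] at e3
    have h8 : ∀ i, ρ ≤ dt (p (i + 1) - p i) (x - p i) := by
      intro i
      have e1 := ball h4 hr.le hxx i
      have e2 := mul_le_mul_of_nonneg_left (h6 i) hr.le
      rw [hρe]
      exact e2.trans e1
    have hseam := h3 p q (fun i => (hpp i).trans_le ((min_le_right _ _).trans (min_le_right _ _)))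
      (fun i => (hqq i).trans_le ((min_le_right _ _).trans (min_le_right _ _)))
    have key : ∀ i j : ZMod n, ∀ t ∈ Icc (0 : ℝ) 1, ∀ s ∈ Icc (0 : ℝ) 1,
        dist x (ed p j s) ≤ dist x (ed p i t) + (1 - c / 2) * dist (ed q i t) (ed q j s) := by
      intro i j t ht s hs'
      have e1 := gap h4 hR hρ h5 h7 h8 i j ht hs'
      have e2 := hseam i j t ht s hs'
      have e3 : 0 ≤ dist (ed p i t) (ed p j s) := dist_nonneg
      have e4 : (1 - ρ ^ 2 / (64 * R ^ 4)) * dist (ed p i t) (ed p j s) ≤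
          (1 - c) * dist (ed p i t) (ed p j s) :=
        mul_le_mul_of_nonneg_right (by linarith) e3
      have e5 : (1 - c / 2) * ((1 - c / 2) * dist (ed p i t) (ed p j s)) ≤
          (1 - c / 2) * dist (ed q i t) (ed q j s) :=
        mul_le_mul_of_nonneg_left e2 (by linarith)
      have e6 : (1 - c) * dist (ed p i t) (ed p j s) ≤
          (1 - c / 2) * ((1 - c / 2) * dist (ed p i t) (ed p j s)) := by
        rw [← mul_assoc]
        refine mul_le_mul_of_nonneg_right ?_ e3
        nlinarith [sq_nonneg c]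
      linarith
    have inj' : ∀ i j : ZMod n, ∀ t ∈ Icc (0 : ℝ) 1, ∀ s ∈ Icc (0 : ℝ) 1,
        ed q i t = ed q j s → ed p i t = ed p j s := by
      intro i j t ht s hs' h
      have e2 := hseam i j t ht s hs'
      rw [h, dist_self] at e2
      have e3 : 0 ≤ dist (ed p i t) (ed p j s) := dist_nonneg
      exact dist_le_zero.1 (by nlinarith)
    have key' : ∀ i j : ZMod n, ∀ t ∈ Icc (0 : ℝ) 1, ∀ s ∈ Icc (0 : ℝ) 1,
        dist x (ed p j s) ≤ dist x (ed p i t) + (1 - c / 4) * dist (ed q i t) (ed q j s) := by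
      intro i j t ht s hs'
      have e := key i j t ht s hs'
      have e3 : 0 ≤ dist (ed q i t) (ed q j s) := dist_nonneg
      nlinarith
    constructor
    · have e := (Gpd.pathI (x := x) (y := y) (lam := 1 - c / 4) (by linarith) (by linarith) key' l
        hl.2 he).1 x hh
      rw [dist_self] at e
      have : 1 - (1 - c / 4) = c / 4 := by ring
      rw [this] at e
      linarith
    · intro hlen
      exact ((Gpd.tight (x := x) (y := y) (mu := 1 - c / 2) (lam := 1 - c / 4) (by linarith)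
        (by linarith) (by linarith) key inj' l hl.2 he).1 x hh
          (by rw [dist_self, hlen, zero_add])).2
  · obtain ⟨τ, hτ⟩ := cong hn h4 h4' g hg
    have e : ∀ i j, dist (q i) (q j) = dist (p (τ i)) (p (τ j)) := by
      intro i j
      rw [hτ i, hτ j, g.dist_eq]
    have e' := h2 p q
      (fun i => (hpp i).trans_le ((min_le_right _ _).trans (min_le_left _ _)))
      (fun i => (hqq i).trans_le ((min_le_right _ _).trans (min_le_left _ _))) τ e
    have : NeZero n := ⟨by omega⟩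
    have hi : Function.Injective τ := by
      intro i j h
      have e3 := e' i j
      rw [h, dist_self] at e3
      exact inj hn hp (dist_eq_zero.1 e3.symm)
    exact ⟨Equiv.ofBijective τ (Finite.injective_iff_bijective.1 hi), e', e⟩

end Pool.Agent.Gpe
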