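import Pool.Agent.Gpc.Rows

set_option autoImplicit false

namespace Pool.Agent.Gpe

open Set Pool.Agent.Gpc

variable {n : ℕ} {p q p₀ : ZMod n → ℂ}

/-- The hull of a convex polygon is to the left of its edges. -/
theorem dt_half (hp : ConvexPolygon p) (i : ZMod n) {z : ℂ} (hz : z ∈ convexHull ℝ (range p)) :
    0 ≤ dt (p (i + 1) - p i) (z - p i) := by
  have hc : Convex ℝ {w : ℂ | 0 ≤ dt (p (i + 1) - p i) (w - p i)} := by
    intro u hu v hv a b ha hb hab
    simp only [mem_ofPred_eq] at hu hv ⊢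
    have e : dt (p (i + 1) - p i) (a • u + b • v - p i) =
        a * dt (p (i + 1) - p i) (u - p i) + b * dt (p (i + 1) - p i) (v - p i) := by
      have hb' : b = 1 - a := by linarith
      subst hb'
      simp only [dt, Complex.sub_re, Complex.sub_im, Complex.add_re, Complex.add_im,
        Complex.real_smul, Complex.mul_re, Complex.mul_im, Complex.ofReal_re, Complex.ofReal_im]
      ring
    rw [e]
    positivity
  have hs : convexHull ℝ (range p) ⊆ {w : ℂ | 0 ≤ dt (p (i + 1) - p i) (w - p i)} := by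
    refine convexHull_min ?_ hc
    rintro _ ⟨j, rfl⟩
    show 0 ≤ dt (p (i + 1) - p i) (p j - p i)
    by_cases h1 : j = i
    · subst h1; simp [dt]
    · by_cases h2 : j = i + 1
      · subst h2
        have : dt (p (i + 1) - p i) (p (i + 1) - p i) = 0 := by unfold dt; ring
        rw [this]
      · exact (hp i j h1 h2).le
  exact hs hz

/-- If `conv p` contains the disc of radius `r` around `x` then `x` is at distance at least `r` from the edges. -/
theorem ball (hp : ConvexPolygon p) {x : ℂ} {r : ℝ} (hr : 0 ≤ r)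
    (hx : Metric.closedBall x r ⊆ convexHull ℝ (range p)) (i : ZMod n) :
    r * ‖p (i + 1) - p i‖ ≤ dt (p (i + 1) - p i) (x - p i) := by
  obtain ⟨e, he⟩ : ∃ e : ℂ, e = p (i + 1) - p i := ⟨_, rfl⟩
  by_cases h0 : e = 0
  · rw [← he, h0]
    simp [dt]
  · have hn : 0 < ‖e‖ := norm_pos_iff.2 h0
    have hn2 : ‖e‖ ^ 2 = e.re ^ 2 + e.im ^ 2 := by
      rw [Complex.sq_norm, Complex.normSq_apply]
      ring
    have hw : x - ((r / ‖e‖ : ℝ) : ℂ) * ⟨-e.im, e.re⟩ ∈ Metric.closedBall x r := by
      have hne : ‖(⟨-e.im, e.re⟩ : ℂ)‖ = ‖e‖ := by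
        rw [← sq_eq_sq₀ (norm_nonneg _) (norm_nonneg _), hn2, Complex.sq_norm, Complex.normSq_apply]
        ring
      rw [Metric.mem_closedBall, dist_eq_norm, sub_sub_cancel_left, norm_neg, norm_mul, hne,
        Complex.norm_real, Real.norm_of_nonneg (by positivity)]
      rw [div_mul_cancel₀ _ hn.ne']
    have h1 := dt_half hp i (hx hw)
    rw [← he] at h1 ⊢
    have h2 : dt e (x - ((r / ‖e‖ : ℝ) : ℂ) * ⟨-e.im, e.re⟩ - p i) =
        dt e (x - p i) - r / ‖e‖ * (e.re ^ 2 + e.im ^ 2) := by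
      simp only [dt, Complex.sub_re, Complex.sub_im, Complex.mul_re, Complex.mul_im,
        Complex.ofReal_re, Complex.ofReal_im]
      ring
    have h3 : r / ‖e‖ * (e.re ^ 2 + e.im ^ 2) = r * ‖e‖ := by
      rw [← hn2]
      field_simp
    rw [h2, h3] at h1
    linarith

theorem add_one_ne (hn : 3 ≤ n) (i : ZMod n) : i + 1 ≠ i := by
  intro h
  have h1 : (1 : ZMod n) = 0 := by
    have := congrArg (fun z => z - i) h
    simpa using this
  have h2 : ((1 : ℕ) : ZMod n) = 0 := by simpa using h1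
  rw [ZMod.natCast_eq_zero_iff] at h2
  have := Nat.le_of_dvd one_pos h2
  omega

theorem add_two_ne (hn : 3 ≤ n) (i : ZMod n) : i + 2 ≠ i := by
  intro h
  have h1 : (2 : ZMod n) = 0 := by
    have := congrArg (fun z => z - i) h
    simpa using this
  have h2 : ((2 : ℕ) : ZMod n) = 0 := by simpa using h1
  rw [ZMod.natCast_eq_zero_iff] at h2
  have := Nat.le_of_dvd two_pos h2
  omega

theorem side_ne (hn : 3 ≤ n) (hp : ConvexPolygon p) (i : ZMod n) : p (i + 1) ≠ p i := by
  intro h
  have h2 : i + 2 ≠ i + 1 := by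
    have := add_one_ne hn (i + 1)
    intro h'
    apply this
    have e : i + 1 + 1 = i + 2 := by ring
    rw [e, h']
  have := hp i (i + 2) (add_two_ne hn i) h2
  rw [h, sub_self] at this
  simp [dt] at this

theorem inj (hn : 3 ≤ n) (hp : ConvexPolygon p) : Function.Injective p := by
  intro i j h
  by_contra hij
  by_cases h1 : j = i + 1
  · subst h1
    exact side_ne hn hp i h.symm
  · have := hp i j (fun h' => hij h'.symm) h1
    rw [← h, sub_self] at this
    simp [dt] at this


/-- Polygons near `p₀` are convex, with sides of length at least `m`. -/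
theorem opn2 (hn : 3 ≤ n) (hp : ConvexPolygon p₀) :
    ∃ ε m R : ℝ, 0 < ε ∧ 0 < m ∧ 0 < R ∧ ∀ p : ZMod n → ℂ, (∀ i, dist (p i) (p₀ i) < ε) →
      ConvexPolygon p ∧ (∀ i, ‖p i‖ ≤ R) ∧ ∀ i, m ≤ ‖p (i + 1) - p i‖ := by
  have : NeZero n := ⟨by omega⟩
  obtain ⟨m, hm1, hm0⟩ : ∃ m : ℝ, (∀ i, m < ‖p₀ (i + 1) - p₀ i‖) ∧ 0 < m := by
    have h1 : ∀ᶠ m : ℝ in nhdsWithin 0 (Ioi 0), ∀ i, m < ‖p₀ (i + 1) - p₀ i‖ :=
      Filter.eventually_all.2 fun i =>
        (eventually_lt_nhds (norm_pos_iff.2 (sub_ne_zero.2 (side_ne hn hp i)))).filter_mono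
          nhdsWithin_le_nhds
    have h2 : ∀ᶠ m : ℝ in nhdsWithin 0 (Ioi 0), (0 : ℝ) < m := self_mem_nhdsWithin
    exact (h1.and h2).exists
  obtain ⟨R, hR1, hR0⟩ : ∃ R : ℝ, (∀ i, ‖p₀ i‖ < R) ∧ 0 < R :=
    ((Filter.eventually_all.2 fun i => Filter.eventually_gt_atTop ‖p₀ i‖).and
      (Filter.eventually_gt_atTop (0 : ℝ))).exists
  have c1 : ∀ i j : ZMod n, Continuous fun q : ZMod n → ℂ => dt (q (i + 1) - q i) (q j - q i) := by
    intro i j
    unfold dt
    fun_prop
  have c2 : ∀ i : ZMod n, Continuous fun q : ZMod n → ℂ => ‖q (i + 1) - q i‖ := by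
    intro i
    fun_prop
  have c3 : ∀ i : ZMod n, Continuous fun q : ZMod n → ℂ => ‖q i‖ := by
    intro i
    fun_prop
  have e1 : ∀ᶠ q : ZMod n → ℂ in nhds p₀, ∀ i j, j ≠ i → j ≠ i + 1 →
      0 < dt (q (i + 1) - q i) (q j - q i) := by
    refine Filter.eventually_all.2 fun i => Filter.eventually_all.2 fun j => ?_
    by_cases h : j ≠ i ∧ j ≠ i + 1
    · filter_upwards [(c1 i j).continuousAt.eventually (lt_mem_nhds (hp i j h.1 h.2))] with q hq _ _
      exact hq
    · exact Filter.Eventually.of_forall fun q h1 h2 => absurd ⟨h1, h2⟩ h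
  have e2 : ∀ᶠ q : ZMod n → ℂ in nhds p₀, ∀ i, ‖q i‖ < R :=
    Filter.eventually_all.2 fun i => (c3 i).continuousAt.eventually (gt_mem_nhds (hR1 i))
  have e3 : ∀ᶠ q : ZMod n → ℂ in nhds p₀, ∀ i, m < ‖q (i + 1) - q i‖ :=
    Filter.eventually_all.2 fun i => (c2 i).continuousAt.eventually (lt_mem_nhds (hm1 i))
  obtain ⟨ε, hε, H⟩ := Metric.eventually_nhds_iff.1 (e1.and (e2.and e3))
  refine ⟨ε, m, R, hε, hm0, hR0, fun p hpp => ?_⟩
  obtain ⟨h1, h2, h3⟩ := H ((dist_pi_lt_iff hε).2 hpp)
  exact ⟨h1, fun i => (h2 i).le, fun i => (h3 i).le⟩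

private theorem ext_ne (hn : 3 ≤ n) : (1 : ZMod n) ≠ 0 ∧ (2 : ZMod n) ≠ 0 := by
  constructor
  · intro h
    have h1 := (ZMod.natCast_eq_zero_iff 1 n).1 (by exact_mod_cast h)
    have := Nat.le_of_dvd one_pos h1
    omega
  · intro h
    have h1 := (ZMod.natCast_eq_zero_iff 2 n).1 (by exact_mod_cast h)
    have := Nat.le_of_dvd two_pos h1
    omega

/-- ⊆: `extremePoints_convexHull_subset`. ⊇: f z = dt (p (i+1) - p i) (z - p i) + dt (p i - p (i-1)) (z - p i) is ≥ 0 on the hull, 0 at
p i and > 0 at the other vertices, so 0 only at p i on the hull (a convex combination of vertices with f = 0 has weight only at p i; or: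
the hull is in {f > 0} ∪ {p i}, which is convex). If p i = a u + b v with a, b > 0, u, v in the hull then f u = f v = 0. -/
theorem ext (hn : 3 ≤ n) (hp : ConvexPolygon p) :
    (convexHull ℝ (range p)).extremePoints ℝ = range p := by
  obtain ⟨h1, h2⟩ := ext_ne hn
  refine Subset.antisymm extremePoints_convexHull_subset ?_
  rintro _ ⟨i, rfl⟩
  obtain ⟨f, hf⟩ : ∃ f : ℂ → ℝ, f = fun z => dt (p (i + 1) - p i) (z - p i) +
    dt (p i - p (i - 1)) (z - p i) := ⟨_, rfl⟩
  have hf0 : f (p i) = 0 := by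
    rw [hf]
    simp [dt]
  have hlin : ∀ (a b : ℝ) (u v : ℂ), a + b = 1 → f (a • u + b • v) = a * f u + b * f v := by
    intro a b u v hab
    obtain rfl : b = 1 - a := by linarith
    rw [hf]
    simp only [dt, Complex.sub_re, Complex.sub_im, Complex.add_re, Complex.add_im, Complex.smul_re,
      Complex.smul_im, smul_eq_mul]
    ring
  have hpos : ∀ j, j ≠ i → 0 < f (p j) := by
    intro j hj
    have e0 : f (p j) = dt (p (i + 1) - p i) (p j - p i) +
        dt (p i - p (i - 1)) (p j - p (i - 1)) := by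
      rw [hf]
      simp only [dt, Complex.sub_re, Complex.sub_im]
      ring
    rw [e0]
    have hA : 0 ≤ dt (p (i + 1) - p i) (p j - p i) := by
      by_cases hj1 : j = i + 1
      · rw [hj1]
        simp only [dt]
        rw [mul_comm, sub_self]
      · exact (hp i j hj hj1).le
    have hB : 0 ≤ dt (p i - p (i - 1)) (p j - p (i - 1)) := by
      by_cases hj1 : j = i - 1
      · rw [hj1, sub_self]
        simp [dt]
      · have h3 := hp (i - 1) j hj1 (by rw [sub_add_cancel]; exact hj)
        rw [sub_add_cancel] at h3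
        exact h3.le
    by_cases hj1 : j = i + 1
    · have hne : j ≠ i - 1 := by
        intro h3
        apply h2
        have h4 : i + 1 = i - 1 := hj1.symm.trans h3
        have h5 : (2 : ZMod n) = (i + 1) - (i - 1) := by ring
        rw [h5, h4, sub_self]
      have h3 := hp (i - 1) j hne (by rw [sub_add_cancel]; exact hj)
      rw [sub_add_cancel] at h3
      linarith
    · have h3 := hp i j hj hj1
      linarith
  have hconv : Convex ℝ {z : ℂ | z = p i ∨ 0 < f z} := by
    intro u hu v hv a b ha hb hab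
    have hu0 : 0 ≤ f u := by
      rcases hu with h | h
      · rw [h, hf0]
      · exact h.le
    have hv0 : 0 ≤ f v := by
      rcases hv with h | h
      · rw [h, hf0]
      · exact h.le
    have hl := hlin a b u v hab
    rcases hu with hu | hu
    · rcases hv with hv | hv
      · left
        rw [hu, hv, ← add_smul, hab, one_smul]
      · rcases hb.eq_or_lt with h0 | h0
        · left
          have ha1 : a = 1 := by linarith
          rw [← h0, ha1, zero_smul, add_zero, one_smul, hu]
        · right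
          rw [hl]
          have := mul_pos h0 hv
          have := mul_nonneg ha hu0
          linarith
    · rcases ha.eq_or_lt with h0 | h0
      · rcases hv with hv | hv
        · left
          have hb1 : b = 1 := by linarith
          rw [← h0, hb1, zero_smul, zero_add, one_smul, hv]
        · right
          rw [hl, ← h0]
          have hb1 : b = 1 := by linarith
          rw [hb1]
          linarith
      · right
        rw [hl]
        have := mul_pos h0 hu
        have := mul_nonneg hb hv0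
        linarith
  have hsub : convexHull ℝ (range p) ⊆ {z : ℂ | z = p i ∨ 0 < f z} := by
    refine convexHull_min ?_ hconv
    rintro _ ⟨j, rfl⟩
    rcases eq_or_ne j i with h | h
    · left
      rw [h]
    · right
      exact hpos j h
  have hge : ∀ z ∈ convexHull ℝ (range p), 0 ≤ f z := by
    intro z hz
    rcases hsub hz with h | h
    · rw [h, hf0]
    · exact h.le
  rw [mem_extremePoints]
  refine ⟨subset_convexHull ℝ _ ⟨i, rfl⟩, fun u hu v hv huv => ?_⟩
  obtain ⟨a, b, ha, hb, hab, he⟩ := huv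
  have h3 := hlin a b u v hab
  rw [he, hf0] at h3
  have h4 := mul_nonneg ha.le (hge u hu)
  have h5 := mul_nonneg hb.le (hge v hv)
  constructor
  · rcases hsub hu with h | h
    · exact h
    · have := mul_pos ha h
      linarith
  · rcases hsub hv with h | h
    · exact h
    · have := mul_pos hb h
      linarith

/-- g is affine (`IsometryEquiv.toRealAffineIsometryEquiv`), so it maps the extreme points of the hull of p onto those of the hull of q:
g '' range p = range q (`ext` twice). -/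
theorem cong (hn : 3 ≤ n) (hp : ConvexPolygon p) (hq : ConvexPolygon q) (g : ℂ ≃ᵢ ℂ)
    (hg : g '' convexHull ℝ (range p) = convexHull ℝ (range q)) :
    ∃ τ : ZMod n → ZMod n, ∀ i, q i = g (p (τ i)) := by
  have key : ∀ i, ∃ j, q i = g (p j) := by
    intro i
    have h1 : q i ∈ (convexHull ℝ (range q)).extremePoints ℝ := by
      rw [ext hn hq]
      exact mem_range_self i
    rw [← hg] at h1
    obtain ⟨x, hx, hgx⟩ := h1.1
    have h2 : x ∈ (convexHull ℝ (range p)).extremePoints ℝ := by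
      refine ⟨hx, fun a ha b hb hab => ?_⟩
      have h3 : g x ∈ openSegment ℝ (g a) (g b) := by
        have h4 := image_openSegment ℝ g.toRealAffineIsometryEquiv.toAffineEquiv.toAffineMap a b
        have h5 := mem_image_of_mem g.toRealAffineIsometryEquiv.toAffineEquiv.toAffineMap hab
        rw [h4] at h5
        exact h5
      have h5 := h1.2 (mem_image_of_mem g ha) (mem_image_of_mem g hb) (by rw [← hgx]; exact h3)
      rw [← hgx] at h5
      exact g.injective h5
    rw [ext hn hp] at h2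
    obtain ⟨j, hj⟩ := h2
    exact ⟨j, by rw [hj, hgx]⟩
  choose τ hτ using key
  exact ⟨τ, hτ⟩

/-- Finitely many (τ, i, j) (ZMod n is finite); 4 ε at most the least nonzero | dist (p₀ (τ i)) (p₀ (τ j)) - dist (p₀ i) (p₀ j) |. The
difference of the distances is < 4 ε. -/
theorem fin (hn : 3 ≤ n) (p₀ : ZMod n → ℂ) :
    ∃ ε : ℝ, 0 < ε ∧ ∀ p q : ZMod n → ℂ, (∀ i, dist (p i) (p₀ i) < ε) →
      (∀ i, dist (q i) (p₀ i) < ε) → ∀ τ : ZMod n → ZMod n,
        (∀ i j, dist (q i) (q j) = dist (p (τ i)) (p (τ j))) →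
        ∀ i j, dist (p₀ (τ i)) (p₀ (τ j)) = dist (p₀ i) (p₀ j) := by
  have : NeZero n := ⟨by omega⟩
  classical
  let F : (ZMod n → ZMod n) × ZMod n × ZMod n → ℝ := fun t =>
    |dist (p₀ (t.1 t.2.1)) (p₀ (t.1 t.2.2)) - dist (p₀ t.2.1) (p₀ t.2.2)|
  obtain ⟨ε, hε, hF⟩ : ∃ ε : ℝ, 0 < ε ∧ ∀ t, F t ≠ 0 → 4 * ε ≤ F t := by
    by_cases hne : (Finset.univ.filter fun t => F t ≠ 0).Nonempty
    · obtain ⟨t₀, ht₀, hmin⟩ := Finset.exists_min_image _ F hne
      have h0 : F t₀ ≠ 0 := (Finset.mem_filter.mp ht₀).2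
      have h1 : 0 < F t₀ := lt_of_le_of_ne (abs_nonneg _) (Ne.symm h0)
      refine ⟨F t₀ / 4, by positivity, fun t ht => ?_⟩
      have := hmin t (Finset.mem_filter.mpr ⟨Finset.mem_univ _, ht⟩)
      linarith
    · refine ⟨1, one_pos, fun t ht => ?_⟩
      exact absurd ⟨t, Finset.mem_filter.mpr ⟨Finset.mem_univ _, ht⟩⟩ hne
  refine ⟨ε, hε, fun p q hp hq τ h i j => ?_⟩
  by_contra hcon
  have h0 : F (τ, i, j) ≠ 0 := by
    simp only [F, ne_eq, abs_eq_zero, sub_eq_zero]
    exact hcon
  have h1 := hF _ h0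
  have h2 : F (τ, i, j) < 4 * ε := by
    simp only [F]
    have e1 := dist_dist_dist_le (p (τ i)) (p (τ j)) (p₀ (τ i)) (p₀ (τ j))
    have e2 := dist_dist_dist_le (q i) (q j) (p₀ i) (p₀ j)
    rw [Real.dist_eq] at e1 e2
    rw [h i j] at e2
    have a1 := hp (τ i)
    have a2 := hp (τ j)
    have a3 := hq i
    have a4 := hq j
    rw [abs_le] at e1 e2
    rw [abs_lt]
    constructor <;> linarith [e1.1, e1.2, e2.1, e2.2]
  linarith

end Pool.Agent.Gpe
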